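import Mathlib

/-!
# Mealy automata and the groups they generate (MP_965ec6_al)
-/

namespace Pool.Agent.Lib.MP_965ec6_al

/-- A Mealy automaton with set of states `A` and alphabet `S`: `trans i x` is `δ_i(x)`, the state
reached from the state `x` on reading the letter `i`, and `out x i` is `ρ_x(i)`, the letter
produced by the state `x` on reading the letter `i`. -/
structure Mealy (A S : Type) where
  /-- `trans i x = δ_i(x)` -/
  trans : S → A → A
  /-- `out x i = ρ_x(i)` -/
  out : A → S → S

namespace Mealy

variable {A S : Type} (M : Mealy A S)

/-- The action of a state on words: `ρ_x(ε) = ε` and `ρ_x(i w) = ρ_x(i) ρ_{δ_i(x)}(w)`. -/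
def word : A → List S → List S
  | _, [] => []
  | x, i :: w => M.out x i :: word (M.trans i x) w

/-- Invertible: every `ρ_x` is a permutation of the alphabet. -/
def Invertible : Prop := ∀ x : A, Function.Bijective (M.out x)

/-- Reversible: every `δ_i` is a permutation of the set of states. -/
def Reversible : Prop := ∀ i : S, Function.Bijective (M.trans i)

/-- Bireversible: invertible, reversible and, for every letter `j`, the map
`x ↦ δ_{ρ_x⁻¹(j)}(x)` is a permutation of the set of states; here `f x` is the letter
`ρ_x⁻¹(j)`, that is, the letter with `ρ_x(f x) = j`. -/
def Bireversible : Prop :=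
  M.Invertible ∧ M.Reversible ∧
    ∀ (j : S) (f : A → S), (∀ x, M.out x (f x) = j) →
      Function.Bijective (fun x => M.trans (f x) x)

theorem word_bijective (h : M.Invertible) (x : A) : Function.Bijective (M.word x) := by
  constructor
  · intro w
    induction w generalizing x with
    | nil =>
      intro w' hw
      cases w' with
      | nil => rfl
      | cons i w' => simp [word] at hw
    | cons i w ih =>
      intro w' hw
      cases w' with
      | nil => simp [word] at hw
      | cons i' w' =>
        simp only [word, List.cons.injEq] at hw
        have hi : i = i' := (h x).1 hw.1
        subst hi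
        rw [ih _ hw.2]
  · intro w
    induction w generalizing x with
    | nil => exact ⟨[], rfl⟩
    | cons i w ih =>
      obtain ⟨i', hi'⟩ := (h x).2 i
      obtain ⟨w', hw'⟩ := ih (M.trans i' x)
      exact ⟨i' :: w', by simp [word, hi', hw']⟩

/-- The bijection of the set of finite words defined by the state `x` of an invertible
automaton. -/
noncomputable def gen (h : M.Invertible) (x : A) : Equiv.Perm (List S) :=
  Equiv.ofBijective (M.word x) (M.word_bijective h x)

/-- The group generated by an invertible automaton: the group of bijections of the set of finite
words generated by the actions of the states. -/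
noncomputable def group (h : M.Invertible) : Subgroup (Equiv.Perm (List S)) :=
  Subgroup.closure (Set.range (M.gen h))

end Mealy

end Pool.Agent.Lib.MP_965ec6_al
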