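import Pool.Agent.Lib.MP_965ec6_al.Defs

/-!
# Large finite groups generated by bireversible automata

The letters are split in classes preserved by every state, and a letter acts on the states through
its class only. The group then embeds in the group of functions from permutations of the states to
permutations of the letters.
-/

namespace Pool.Agent.Lib.MP_965ec6_al

open Equiv Equiv.Perm

section General

variable {A S C : Type} (c : S → C) (σ : C → Perm A) (ρ : A → Perm S)

/-- The automaton with letter classes `c`, acting on states by `σ` of the class. -/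
def auto : Mealy A S where
  trans i x := σ (c i) x
  out x i := ρ x i

lemma auto_bireversible (hc : ∀ x i, c (ρ x i) = c i) : (auto c σ ρ).Bireversible := by
  refine ⟨fun x => (ρ x).bijective, fun i => (σ (c i)).bijective, ?_⟩
  intro j f hf
  have h1 : ∀ x, c (f x) = c j := by
    intro x
    have h2 : ρ x (f x) = j := hf x
    rw [← hc x (f x), h2]
  have h2 : (fun x => (auto c σ ρ).trans (f x) x) = fun x => σ (c j) x := by
    funext x
    simp only [auto]
    rw [h1 x]
  rw [h2]
  exact (σ (c j)).bijective

/-- The action on words of a function from permutations of the states to permutations of the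
letters. -/
def act (F : Perm A → Perm S) : Perm A → List S → List S
  | _, [] => []
  | h, i :: w => F h i :: act F (σ (c i) * h) w

/-- The permutation of the states reached after a word. -/
def acc : Perm A → List S → Perm A
  | h, [] => h
  | h, i :: w => acc (σ (c i) * h) w

lemma word_eq (x : A) (h : Perm A) (w : List S) :
    (auto c σ ρ).word (h x) w = act c σ (fun g => ρ (g x)) h w := by
  induction w generalizing h with
  | nil => rfl
  | cons i w ih =>
    simp only [Mealy.word, act]
    have := ih (σ (c i) * h)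
    rw [Perm.mul_apply] at this
    simp only [auto] at this ⊢
    rw [this]

/-- The functions preserving the classes of letters. -/
def good : Subgroup (Perm A → Perm S) where
  carrier := {F | ∀ h i, c (F h i) = c i}
  mul_mem' := by
    intro F G hF hG h i
    simp only [Pi.mul_apply, Perm.mul_apply]
    rw [hF, hG]
  one_mem' := by
    intro h i
    simp
  inv_mem' := by
    intro F hF h i
    have := hF h ((F h)⁻¹ i)
    simp only [Pi.inv_apply]
    rw [← this]
    simp

lemma act_mul (F G : Perm A → Perm S) (hG : G ∈ good (A := A) c) (h : Perm A) (w : List S) :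
    act c σ F h (act c σ G h w) = act c σ (F * G) h w := by
  induction w generalizing h with
  | nil => rfl
  | cons i w ih =>
    simp only [act, Pi.mul_apply, Perm.mul_apply]
    rw [hG h i, ih]

lemma act_one (h : Perm A) (w : List S) : act c σ (1 : Perm A → Perm S) h w = w := by
  induction w generalizing h with
  | nil => rfl
  | cons i w ih =>
    simp only [act, Pi.one_apply, Perm.one_apply]
    rw [ih]

/-- The embedding of class-preserving functions in the bijections of words. -/
def theta : good (A := A) c →* Perm (List S) :=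
  MonoidHom.toHomPerm
    { toFun := fun F => (act c σ F.1 1 : Function.End (List S))
      map_one' := by
        funext w
        exact act_one c σ 1 w
      map_mul' := by
        intro F G
        funext w
        exact (act_mul c σ F.1 G.1 G.2 1 w).symm }

lemma theta_apply (F : good (A := A) c) (w : List S) : theta c σ F w = act c σ F.1 1 w := rfl

/-- The function attached to a state. -/
def gf (hc : ∀ x i, c (ρ x i) = c i) (x : A) : good (A := A) c :=
  ⟨fun g => ρ (g x), fun g i => hc (g x) i⟩

lemma group_eq (hc : ∀ x i, c (ρ x i) = c i) :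
    (auto c σ ρ).group (auto_bireversible c σ ρ hc).1
      = (Subgroup.closure (Set.range (gf c ρ hc))).map (theta c σ) := by
  rw [MonoidHom.map_closure, ← Set.range_comp]
  unfold Mealy.group
  congr 2
  funext x
  refine Equiv.ext fun w => ?_
  simp only [Function.comp_apply, theta_apply, gf]
  have := word_eq c σ ρ x 1 w
  rw [Perm.one_apply] at this
  exact this

lemma group_finite [Finite A] [Finite S] (hc : ∀ x i, c (ρ x i) = c i) :
    Finite ((auto c σ ρ).group (auto_bireversible c σ ρ hc).1) := by
  rw [group_eq]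
  exact ((Set.toFinite ((Subgroup.closure (Set.range (gf c ρ hc)) :
    Subgroup (good (A := A) c)) : Set (good (A := A) c))).image (theta c σ)).to_subtype

lemma act_append (F : Perm A → Perm S) (h : Perm A) (w : List S) (s : S) :
    act c σ F h (w ++ [s]) = act c σ F h w ++ [F (acc c σ h w) s] := by
  induction w generalizing h with
  | nil => rfl
  | cons i w ih =>
    simp only [act, acc, List.cons_append]
    rw [ih]

lemma acc_append (h : Perm A) (w w' : List S) :
    acc c σ h (w ++ w') = acc c σ (acc c σ h w) w' := by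
  induction w generalizing h with
  | nil => rfl
  | cons i w ih =>
    simp only [acc, List.cons_append]
    rw [ih]

lemma exists_acc (g : Perm A) (hg : g ∈ Submonoid.closure (Set.range fun i => σ (c i))) :
    ∀ h : Perm A, ∃ w : List S, acc c σ h w = g * h := by
  induction hg using Submonoid.closure_induction with
  | mem x hx =>
    intro h
    obtain ⟨i, rfl⟩ := hx
    exact ⟨[i], rfl⟩
  | one =>
    intro h
    exact ⟨[], by simp [acc]⟩
  | mul x y _ _ hx hy =>
    intro h
    obtain ⟨w, hw⟩ := hy h
    obtain ⟨w', hw'⟩ := hx (y * h)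
    exact ⟨w ++ w', by rw [acc_append, hw, hw', mul_assoc]⟩

lemma theta_inj (hg : Submonoid.closure (Set.range fun i => σ (c i)) = ⊤)
    (F G : good (A := A) c) (h : theta c σ F = theta c σ G) : F = G := by
  apply Subtype.ext
  funext g
  refine Equiv.ext fun s => ?_
  obtain ⟨w, hw⟩ := exists_acc c σ g (by rw [hg]; trivial) 1
  rw [mul_one] at hw
  have h1 : theta c σ F (w ++ [s]) = theta c σ G (w ++ [s]) := by rw [h]
  rw [theta_apply, theta_apply, act_append, act_append, hw] at h1
  have h2 := List.append_inj_right' h1 rfl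
  simpa using h2

end General

/-- Ordered pairs of distinct states. -/
abbrev Pair (A : Type) : Type := {x : A × A // x.1 ≠ x.2}

section Count

variable {A S C : Type} [DecidableEq A] [DecidableEq S] (c : S → C) (i0 i1 : A) (a b : Perm S)

/-- The productions: state `i0` produces `a`, state `i1` produces `b`, the others are trivial. -/
def prod (x : A) : Perm S := if x = i0 then a else if x = i1 then b else 1

/-- A function on pairs of states with values in the powers of `b`, as a class-preserving
function. -/
def emb (h01 : i0 ≠ i1) (hb : ∀ i, c (b i) = c i) :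
    (Pair A → Subgroup.zpowers b) →* good (A := A) c where
  toFun f := ⟨fun h => (f ⟨(h⁻¹ i0, h⁻¹ i1), fun e => h01 (h⁻¹.injective e)⟩ : Perm S), by
    intro h i
    set z := f ⟨(h⁻¹ i0, h⁻¹ i1), fun e => h01 (h⁻¹.injective e)⟩ with hz
    have hmem : (z : Perm S) ∈ Subgroup.zpowers b := z.2
    have key : ∀ y ∈ Subgroup.zpowers b, ∀ i, c (y i) = c i := by
      intro y hy
      rw [Subgroup.zpowers_eq_closure] at hy
      induction hy using Subgroup.closure_induction with
      | mem x hx =>
        rw [Set.mem_singleton_iff.mp hx]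
        exact hb
      | one => intro i; simp
      | mul x y _ _ hx hy => intro i; rw [Perm.mul_apply, hx, hy]
      | inv x _ hx =>
        intro i
        have := hx (x⁻¹ i)
        rw [← this]
        simp
    exact key _ hmem i⟩
  map_one' := by
    apply Subtype.ext
    funext h
    simp
  map_mul' f g := by
    apply Subtype.ext
    funext h
    simp

omit [DecidableEq S] in
lemma emb_single (h01 : i0 ≠ i1) (hb : ∀ i, c (b i) = c i)
    (hp : ∀ x i, c (prod i0 i1 a b x i) = c i)
    (ha2 : a * a = 1) (hb3 : b ^ 3 = 1) (hab : a * b * a⁻¹ * b⁻¹ = b) (P : Pair A) :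
    emb c i0 i1 b h01 hb (Pi.mulSingle P ⟨b, Subgroup.mem_zpowers b⟩)
      = gf c (prod i0 i1 a b) hp P.1.1 * gf c (prod i0 i1 a b) hp P.1.2 ^ 4
        * (gf c (prod i0 i1 a b) hp P.1.1)⁻¹ * (gf c (prod i0 i1 a b) hp P.1.2 ^ 4)⁻¹ := by
  apply Subtype.ext
  funext h
  have hb4 : b ^ 4 = b := by rw [pow_succ, hb3, one_mul]
  have ha4 : a ^ 4 = 1 := by
    rw [show (4:ℕ) = 2 + 2 from rfl, pow_add, pow_two, ha2, one_mul]
  have hR : ((gf c (prod i0 i1 a b) hp P.1.1 * gf c (prod i0 i1 a b) hp P.1.2 ^ 4
        * (gf c (prod i0 i1 a b) hp P.1.1)⁻¹ * (gf c (prod i0 i1 a b) hp P.1.2 ^ 4)⁻¹ :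
        good (A := A) c) : Perm A → Perm S) h
      = prod i0 i1 a b (h P.1.1) * prod i0 i1 a b (h P.1.2) ^ 4
        * (prod i0 i1 a b (h P.1.1))⁻¹ * (prod i0 i1 a b (h P.1.2) ^ 4)⁻¹ := rfl
  rw [hR]
  have hL : ((emb c i0 i1 b h01 hb (Pi.mulSingle P ⟨b, Subgroup.mem_zpowers b⟩) :
      good (A := A) c) : Perm A → Perm S) h
      = if h P.1.1 = i0 ∧ h P.1.2 = i1 then b else 1 := by
    simp only [emb, MonoidHom.coe_mk, OneHom.coe_mk]
    by_cases hP : h P.1.1 = i0 ∧ h P.1.2 = i1
    · rw [if_pos hP]
      have : (⟨(h⁻¹ i0, h⁻¹ i1), fun e => h01 (h⁻¹.injective e)⟩ : Pair A) = P := by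
        apply Subtype.ext
        ext
        · simp [← hP.1]
        · simp [← hP.2]
      rw [this, Pi.mulSingle_eq_same]
    · rw [if_neg hP, Pi.mulSingle_eq_of_ne]
      · rfl
      · intro e
        apply hP
        rw [← e]
        simp
  rw [hL]
  have hne : h P.1.1 ≠ h P.1.2 := fun e => P.2 (h.injective e)
  unfold prod
  by_cases h1 : h P.1.1 = i0
  · have h2 : h P.1.2 ≠ i0 := fun e => hne (h1.trans e.symm)
    by_cases h3 : h P.1.2 = i1
    · rw [if_pos ⟨h1, h3⟩, if_pos h1, if_neg h2, if_pos h3, hb4, hab]
    · rw [if_neg (fun e => h3 e.2), if_pos h1, if_neg h2, if_neg h3]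
      simp
  · rw [if_neg (fun e => h1 e.1), if_neg h1]
    by_cases h2 : h P.1.2 = i0
    · rw [if_pos h2, ha4]
      simp
    · rw [if_neg h2]
      by_cases h3 : h P.1.2 = i1
      · have h4 : h P.1.1 ≠ i1 := fun e => hne (e.trans h3.symm)
        rw [if_pos h3, if_neg h4]
        simp
      · rw [if_neg h3]
        simp

omit [DecidableEq S] in
lemma emb_mem [Finite A] (h01 : i0 ≠ i1) (hb : ∀ i, c (b i) = c i)
    (hp : ∀ x i, c (prod i0 i1 a b x i) = c i)
    (ha2 : a * a = 1) (hb3 : b ^ 3 = 1) (hab : a * b * a⁻¹ * b⁻¹ = b)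
    (f : Pair A → Subgroup.zpowers b) :
    emb c i0 i1 b h01 hb f ∈ Subgroup.closure (Set.range (gf c (prod i0 i1 a b) hp)) := by
  set Γ := Subgroup.closure (Set.range (gf c (prod i0 i1 a b) hp)) with hΓ
  have hg : ∀ x, gf c (prod i0 i1 a b) hp x ∈ Γ := fun x =>
    Subgroup.subset_closure ⟨x, rfl⟩
  rw [← Subgroup.mem_comap]
  refine Subgroup.pi_mem_of_mulSingle_mem f fun P => ?_
  obtain ⟨k, hk⟩ := Subgroup.mem_zpowers_iff.mp (f P).2
  have h1 : f P = (⟨b, Subgroup.mem_zpowers b⟩ : Subgroup.zpowers b) ^ k := by
    apply Subtype.ext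
    simp [hk]
  rw [h1, Pi.mulSingle_zpow]
  refine Subgroup.zpow_mem _ ?_ k
  rw [Subgroup.mem_comap, emb_single c i0 i1 a b h01 hb hp ha2 hb3 hab P]
  exact Γ.mul_mem (Γ.mul_mem (Γ.mul_mem (hg _) (Γ.pow_mem (hg _) 4)) (Γ.inv_mem (hg _)))
    (Γ.inv_mem (Γ.pow_mem (hg _) 4))

omit [DecidableEq S] in
lemma emb_inj (h01 : i0 ≠ i1) (hb : ∀ i, c (b i) = c i) :
    Function.Injective (emb c i0 i1 b h01 hb) := by
  intro f g hfg
  funext P
  set h : Perm A := swap (swap P.1.1 i0 P.1.2) i1 * swap P.1.1 i0 with hh
  have hne : swap P.1.1 i0 P.1.2 ≠ i0 := by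
    intro e
    have : swap P.1.1 i0 P.1.2 = swap P.1.1 i0 P.1.1 := by rw [e, swap_apply_left]
    exact P.2 ((swap P.1.1 i0).injective this).symm
  have e0 : h P.1.1 = i0 := by
    rw [hh, Perm.mul_apply, swap_apply_left, swap_apply_of_ne_of_ne hne.symm h01]
  have e1 : h P.1.2 = i1 := by
    rw [hh, Perm.mul_apply, swap_apply_left]
  have h2 := congrFun (congrArg Subtype.val hfg) h
  simp only [emb, MonoidHom.coe_mk, OneHom.coe_mk] at h2
  have : (⟨(h⁻¹ i0, h⁻¹ i1), fun e => h01 (h⁻¹.injective e)⟩ : Pair A) = P := by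
    apply Subtype.ext
    ext
    · simp [← e0]
    · simp [← e1]
  rw [this] at h2
  exact Subtype.ext h2

end Count

theorem main (p q : ℕ) (hp : 4 ≤ p) (hq : p.factorial < 3 ^ (q - 1)) :
    ∃ (M : Mealy (Fin q) (Fin p)) (h : M.Bireversible),
      Finite (M.group h.1) ∧ p.factorial ^ q < 3 ^ (q * (q - 1)) ∧
        3 ^ (q * (q - 1)) ≤ Nat.card (M.group h.1) := by
  have hq2 : 2 ≤ q := by
    by_contra hlt
    have : q - 1 = 0 := by omega
    rw [this, pow_zero] at hq
    have := Nat.factorial_pos p
    omega
  have : NeZero q := ⟨by omega⟩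
  set i0 : Fin q := ⟨0, by omega⟩ with hi0
  have hcyc : IsCycle (finRotate q) := isCycle_finRotate_of_le hq2
  have hsupp : (finRotate q).support = Finset.univ := support_finRotate_of_le hq2
  set i1 : Fin q := finRotate q i0 with hi1
  have h01 : i0 ≠ i1 := by
    have : i0 ∈ (finRotate q).support := by rw [hsupp]; exact Finset.mem_univ _
    exact (Perm.mem_support.mp this).symm
  set l0 : Fin p := ⟨0, by omega⟩
  set l1 : Fin p := ⟨1, by omega⟩
  set l2 : Fin p := ⟨2, by omega⟩
  set l3 : Fin p := ⟨3, by omega⟩
  have n01 : l0 ≠ l1 := by simp [l0, l1]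
  have n02 : l0 ≠ l2 := by simp [l0, l2]
  have n12 : l1 ≠ l2 := by simp [l1, l2]
  have n03 : l0 ≠ l3 := by simp [l0, l3]
  have n13 : l1 ≠ l3 := by simp [l1, l3]
  have n23 : l2 ≠ l3 := by simp [l2, l3]
  set a : Perm (Fin p) := swap l0 l1 with ha
  set b : Perm (Fin p) := swap l0 l1 * swap l0 l2 with hb
  set c : Fin p → Bool := fun s => decide (s = l3) with hc
  set σ : Bool → Perm (Fin q) := fun t => if t then swap i0 i1 else finRotate q with hσ
  have a3 : a l3 = l3 := swap_apply_of_ne_of_ne n03.symm n13.symm
  have b3 : b l3 = l3 := by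
    rw [hb, Perm.mul_apply, swap_apply_of_ne_of_ne n03.symm n23.symm]
    exact a3
  have hfix : ∀ y : Perm (Fin p), y l3 = l3 → ∀ i, c (y i) = c i := by
    intro y hy i
    simp only [hc]
    congr 1
    apply propext
    constructor
    · intro e
      exact y.injective (e.trans hy.symm)
    · intro e
      rw [e, hy]
  have hca := hfix a a3
  have hcb := hfix b b3
  have hpr : ∀ x i, c (prod i0 i1 a b x i) = c i := by
    intro x
    unfold prod
    split_ifs
    · exact hca
    · exact hcb
    · exact fun i => rfl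
  have ha2 : a * a = 1 := swap_mul_self _ _
  have h3c : IsThreeCycle b := isThreeCycle_swap_mul_swap_same n01 n02 n12
  have hord : orderOf b = 3 := h3c.orderOf
  have hb3 : b ^ 3 = 1 := by rw [← hord, pow_orderOf_eq_one]
  have hab : a * b * a⁻¹ * b⁻¹ = b := by
    have h1 : b * a * b⁻¹ = swap l0 l2 := by
      have h2 : b * swap l0 l1 * b⁻¹ = swap (b l0) (b l1) := by
        rw [mul_swap_eq_swap_mul, mul_inv_cancel_right]
      rw [ha, h2]
      have e0 : b l0 = l2 := by
        rw [hb, Perm.mul_apply, swap_apply_left, swap_apply_of_ne_of_ne n02.symm n12.symm]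
      have e1 : b l1 = l0 := by
        rw [hb, Perm.mul_apply, swap_apply_of_ne_of_ne n01.symm n12, swap_apply_right]
      rw [e0, e1, swap_comm]
    have h2 : a⁻¹ = a := by rw [inv_eq_iff_mul_eq_one, ha2]
    rw [h2, mul_assoc a b a, mul_assoc a (b * a) b⁻¹, h1]
  have hcl : Submonoid.closure (Set.range fun i => σ (c i)) = ⊤ := by
    have hr : (Set.range fun i => σ (c i)) = {finRotate q, swap i0 (finRotate q i0)} := by
      ext y
      simp only [Set.mem_range, Set.mem_insert_iff, Set.mem_singleton_iff]
      constructor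
      · rintro ⟨i, rfl⟩
        simp only [hσ, hc]
        by_cases hi : i = l3
        · right; simp [hi, hi1]
        · left; simp [hi]
      · rintro (rfl | rfl)
        · exact ⟨l0, by simp [hσ, hc, n03]⟩
        · exact ⟨l3, by simp [hσ, hc, hi1]⟩
    rw [hr, ← Subgroup.closure_toSubmonoid_of_isOfFinOrder (fun x _ => isOfFinOrder_of_finite x),
      closure_cycle_adjacent_swap hcyc hsupp i0]
    rfl
  refine ⟨auto c σ (prod i0 i1 a b), auto_bireversible c σ (prod i0 i1 a b) hpr, ?_, ?_, ?_⟩
  · exact group_finite c σ (prod i0 i1 a b) hpr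
  · rw [mul_comm q (q - 1), pow_mul]
    exact Nat.pow_lt_pow_left hq (by omega)
  · have hfin : Finite ((auto c σ (prod i0 i1 a b)).group
        (auto_bireversible c σ (prod i0 i1 a b) hpr).1) :=
      group_finite c σ (prod i0 i1 a b) hpr
    have hle : Nat.card (Pair (Fin q) → Subgroup.zpowers b) ≤
        Nat.card ((auto c σ (prod i0 i1 a b)).group
          (auto_bireversible c σ (prod i0 i1 a b) hpr).1) := by
      refine Nat.card_le_card_of_injective
        (fun f => ⟨theta c σ (emb c i0 i1 b h01 hcb f), ?_⟩) ?_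
      · rw [group_eq c σ (prod i0 i1 a b) hpr]
        exact Subgroup.mem_map_of_mem _
          (emb_mem c i0 i1 a b h01 hcb hpr ha2 hb3 hab f)
      · intro f g hfg
        have := congrArg Subtype.val hfg
        exact emb_inj c i0 i1 b h01 hcb (theta_inj c σ hcl _ _ this)
    refine le_trans ?_ hle
    have hcard : Nat.card (Pair (Fin q) → Subgroup.zpowers b) = 3 ^ ((q - 1) * q) := by
      rw [Nat.card_fun, Nat.card_zpowers, hord]
      congr 1
      have h1 : (Finset.univ.filter fun x : Fin q × Fin q => x.1 ≠ x.2)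
          = (Finset.univ : Finset (Fin q)).offDiag := by
        ext x
        simp [Finset.mem_offDiag]
      rw [Nat.card_eq_fintype_card, Fintype.card_subtype, h1, Finset.offDiag_card,
        Finset.card_univ, Fintype.card_fin, Nat.sub_mul, one_mul]
    rw [hcard, mul_comm]

end Pool.Agent.Lib.MP_965ec6_al
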